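import Mathlib
import Pool.Agent.N824.CJ.BridgeF

/-!
# Families of cohomologous symplectic forms from coarse maps

`π : X → B` is a smooth submersion between manifolds (Hausdorff, second countable, not
necessarily compact), `Z` a closed subset of `X` and `ω₀` a smooth closed two-form on `X`. The
theorem characterizes when there is a closed form `σ = ω₀ + dα` which is symplectic on all fibres
of `π`, where the smooth one-form `α` vanishes outside a compact subset of `X \ Z`.

For the space `S_a` of symplectic forms in the class `a` on the closed manifold `M` (in the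
question `M` is the complex projective plane) one takes `X = M × ℝᵏ`, `B = ℝᵏ` and
`Z = {(x, s) : |s| ≥ 1}`. A smooth map of the sphere `S^{k-1}` to `S_a` extends to a smooth family
of closed forms in the class `a`, parametrized by `ℝᵏ`, the restrictions to the fibres of a closed
form `ω₀` on `X`, which are symplectic for `|s| ≥ 1` (the closed forms in the class `a` form an
affine space). The map is contractible in `S_a` iff the forms with `|s| < 1` can be
replaced by symplectic forms in the class `a`: this is the question whether `σ` exists.

The criterion: there are an open set `U` containing `Z`, with compact complement, on which `ω₀` is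
nondegenerate on the fibres, and maps `f r : X → (ℝ²)^N`, for arbitrarily small scales `r`, which
vanish on `U`, have no regularity besides local integrability (not even along the parameters), and
near the points outside `U`, on the balls of radius comparable with `r`, are *in the mean* close
to affine maps, with an error `δ` which is small compared with the nondegeneracy, on the vectors
tangent to the fibres, of `ω₀ + L^*(∑ dx ∧ dy)`, `L` the linear part.

The definitions are in `Pool/Agent/N824/CJ/PubF.lean` (`Submersion`, `vertVecs`, `vertPairs`,
`FibreNondeg`), `Pool/Agent/N824/CJ/PubV.lean` (`HasCoarseRelOn`, `CoarseAtOn`, `RobustOn`),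
`Pool/Agent/N824/CJ/PubR.lean` (`InClassRel`), `Pool/Agent/N824/CJ/Pub.lean` (`AffineInMean`,
`GoodParam`) and in the starting file `Pool/Agent/Y501/SY/Pub.lean` (forms).
-/

set_option autoImplicit false

open scoped Manifold ContDiff

namespace Pool.Agent.Results.MP_2fc7fa_gt.CoarseFamilies

open Pool.Agent.Y501.SYP
open Pool.Agent.N824.CJP

theorem result (n : ℕ) : ∃ C₀ : ℕ → ℝ, ∀ C : ℕ → ℝ, (∀ N, C₀ N ≤ C N) →
    ∀ (X : Type) [TopologicalSpace X] [ChartedSpace (ES n) X] [IsManifold 𝓘(ℝ, ES n) ∞ X]
      [T2Space X] [SecondCountableTopology X] (k : ℕ) (B : Type) [TopologicalSpace B]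
      [ChartedSpace (ES k) B] [IsManifold 𝓘(ℝ, ES k) ∞ B] (π : X → B),
      Submersion (V := ES n) (ES k) π → ∀ (Z : Set X) (ω₀ : Form (ES n) X 2), IsClosed Z →
      IsSmooth ω₀ → IsClosedForm ω₀ →
      ((∃ σ : Form (ES n) X 2, InClassRel Z ω₀ σ ∧ FibreNondeg (ES k) π σ) ↔
        HasCoarseRelOn (vertVecs (ES k) π) n (vol n) C Z ω₀ (vertPairs (ES k) π)) :=
  ⟨fun N => 4 * N * Pool.Agent.N824.CJ.CJ n ^ 2, fun C hC X _ _ _ _ _ _ _ _ _ _ π hπ Z ω₀ hZ hs
    hc => mainFP n C hC X π hπ Z hZ ω₀ hs hc⟩

end Pool.Agent.Results.MP_2fc7fa_gt.CoarseFamilies
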