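import Mathlib
import Pool.Agent.N13.TL.Pub

/-!
# Spheres in the space of cohomologous symplectic forms, and families of taming loci

Let `S_a` be the space of symplectic forms in the class `a = [σ₀]` of a closed connected manifold
`X`.  Q1 asks whether it is contractible for the complex projective plane, that is (`S_a` is an open
set in an affine space) whether for all `k` every continuous map from the sphere to `S_a` extends to
the ball.  The theorem is a necessary and sufficient condition for the extension of a continuous map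
`η : Q → S_a` to a compact Hausdorff space `P` which contains `Q` as a neighbourhood retract.

Let `J_p`, `p ∈ P`, be a continuous family of almost complex structures such that `η_q` tames `J_q`
for `q ∈ Q`.  For each single `p` outside `Q`, let `L_p` be the taming locus of the ray of the
positive multiples of `a`: the set of the points near which the closed forms in classes `c a`,
`c > 0`, with arbitrarily small negative part on the `J_p`-complex lines are not uniformly positive.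
These forms may be unbounded, `c` may tend to zero or infinity, and nothing is assumed about their
dependence on `p`.  If for each `p` outside `Q` the components of the fibres in `L_p` (of the smooth
functions controlled by these forms) are small, there is an extension `Ω : P → S_a` of `η`, such that
`Ω_p` tames `J_p` for all `p`.  Conversely for every extension there is such a family `J`, with empty
loci.

So Q1 is a question about families of almost complex structures: whether a family over the sphere, the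
members of which are tamed by the members of a continuous family in `S_a`, extends to a family over
the ball all members of which have small taming loci.

Library: families of taming forms by helper130 (`Q130.SF`), the taming locus
(`Pool.Agent.N13.TL`), and `Pool.Agent.Y501.SY` by helpers 501, 484, 363, 108, 925, 44 and others.
-/

set_option autoImplicit false

open Set MeasureTheory Topology
open scoped Manifold ContDiff

noncomputable section

namespace Pool.Agent.Results.MP_2fc7fa_gt.FamiliesOfLoci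

open Pool.Agent.Y501.SYP Pool.Agent.N13.TLP

section defs

variable {V : Type} [NormedAddCommGroup V] [NormedSpace ℝ V] {X : Type} [TopologicalSpace X]
  [ChartedSpace V X] {P : Type} [TopologicalSpace P]

/-- `σ = σ₀ + dα` for a smooth one-form `α` -/
def Cohomologous (σ σ₀ : Form V X 2) : Prop :=
  ∃ (α : Form V X 1) (ρ : Form V X 2), IsSmooth α ∧ IsSmooth ρ ∧ IsD α ρ ∧ σ = addF σ₀ ρ

/-- the smooth closed forms in the classes `c [σ₀]`, `c > 0` -/
def Ray (σ₀ : Form V X 2) : Set (Form V X 2) :=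
  {σ | IsSmooth σ ∧ IsClosedForm σ ∧ ∃ c : ℝ, 0 < c ∧ Cohomologous σ fun x => c • σ₀ x}

/-- `Ω_p`, `p ∈ S`, is a family of closed forms in the class of `σ₀`, continuous in the `C^∞`
topology -/
structure FamilyInClass (S : Set P) (σ₀ : Form V X 2) (Ω : P → Form V X 2) : Prop where
  smooth : ∀ p ∈ S, IsSmooth (Ω p)
  closed : ∀ p ∈ S, IsClosedForm (Ω p)
  inClass : ∀ p ∈ S, Cohomologous (Ω p) σ₀
  cont : ∀ (U : Set V) (φ : V → X), SmoothParam U φ → ∀ j : ℕ,
    ContinuousOn (fun q : P × V => iteratedFDeriv ℝ j (pb φ (Ω q.1)) q.2) (S ×ˢ U)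

/-- `J_p`, `p ∈ P`, is a continuous family of almost complex structures -/
structure AcFamily (J : P → End V X) : Prop where
  sq : ∀ (p : P) (x : X) (v : TangentSpace 𝓘(ℝ, V) x), J p x (J p x v) = -v
  cont : ∀ (x₀ : X) (v : V), ContinuousOn (fun q : P × V => inChart (J q.1) x₀ q.2 v)
    (univ ×ˢ (chartAt V x₀).target)

/-- `Q` is closed, and a retract of an open neighbourhood -/
def NbhdRetract (Q : Set P) : Prop :=
  IsClosed Q ∧ ∃ (N : Set P) (r : P → P), IsOpen N ∧ Q ⊆ N ∧ ContinuousOn r N ∧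
    (∀ p ∈ N, r p ∈ Q) ∧ ∀ q ∈ Q, r q = q

/-- `Ω : P → S_a` is a continuous extension of the family `η` over `Q` -/
structure Extends (Q : Set P) (σ₀ : Form V X 2) (η Ω : P → Form V X 2) : Prop where
  eq : ∀ q ∈ Q, Ω q = η q
  family : FamilyInClass univ σ₀ Ω
  nondeg : ∀ p, NondegForm (Ω p)

end defs

attribute [local instance] cs mf

section lemmas

variable {d : ℕ} {X : Type} [TopologicalSpace X] [ChartedSpace (ES d) X]
  [IsManifold 𝓘(ℝ, ES d) ∞ X]

theorem ray_stable {σ₀ : Form (ES d) X 2} : ExactStable (Ray σ₀) := by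
  refine ⟨fun σ hσ => hσ.1, fun σ hσ => hσ.2.1, ?_, ?_⟩
  · rintro σ ⟨s1, c1, c, hc, α, ρ, a1, a2, a3, e1⟩ τ ⟨s2, c2, c', hc', α', ρ', b1, b2, b3, e2⟩ a b
      ha hb hab
    refine ⟨Pool.Agent.Q130.SF.smooth_lin s1 s2 a b, Pool.Agent.Q130.SF.closed_lin s1 s2 c1 c2 a b,
      a * c + b * c', ?_, a • α + b • α', a • ρ + b • ρ',
      Pool.Agent.Q130.SF.smooth_lin a1 b1 a b, Pool.Agent.Q130.SF.smooth_lin a2 b2 a b,
      Pool.Agent.Q130.SF.isD_lin a1 b1 a3 b3 a b, ?_⟩
    · rcases ha.lt_or_eq with h | h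
      · have h1 := mul_pos h hc
        have h2 := mul_nonneg hb hc'.le
        linarith
      · have h3 : b = 1 := by linarith
        rw [← h, h3]
        linarith
    · subst e1 e2
      funext x
      show a • (c • σ₀ x + ρ x) + b • (c' • σ₀ x + ρ' x) =
        (a * c + b * c') • σ₀ x + (a • ρ x + b • ρ' x)
      module
  · rintro σ ⟨s1, c1, c, hc, α', ρ', a1, a2, a3, e1⟩ α ρ hα hρ hαρ
    have h1 : IsSmooth ((1 : ℝ) • σ + (1 : ℝ) • ρ) :=
      Pool.Agent.Q130.SF.smooth_lin s1 hρ 1 1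
    have hρc : IsClosedForm ρ := (closed_iff ρ).2
      (Pool.Agent.Y501.SY.closed_of_isD (d := d) (X := X) ((smooth_iff α).1 hα)
        ((smooth_iff ρ).1 hρ) ((isD_iff α ρ).1 hαρ))
    have h2 : IsClosedForm ((1 : ℝ) • σ + (1 : ℝ) • ρ) :=
      Pool.Agent.Q130.SF.closed_lin s1 hρ c1 hρc 1 1
    have h3 : addF σ ρ = (1 : ℝ) • σ + (1 : ℝ) • ρ := by
      rw [one_smul, one_smul]
      rfl
    refine ⟨by rw [h3]; exact h1, by rw [h3]; exact h2, c, hc, (1 : ℝ) • α' + (1 : ℝ) • α,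
      (1 : ℝ) • ρ' + (1 : ℝ) • ρ, Pool.Agent.Q130.SF.smooth_lin a1 hα 1 1,
      Pool.Agent.Q130.SF.smooth_lin a2 hρ 1 1, Pool.Agent.Q130.SF.isD_lin a1 hα a3 hαρ 1 1, ?_⟩
    rw [h3]
    subst e1
    funext x
    show (1 : ℝ) • (c • σ₀ x + ρ' x) + (1 : ℝ) • ρ x = c • σ₀ x + ((1 : ℝ) • ρ' x + (1 : ℝ) • ρ x)
    module

omit [IsManifold 𝓘(ℝ, ES d) ∞ X] in
theorem mem_ray {σ₀ : Form (ES d) X 2} {σ : Form (ES d) X 2} (h1 : IsSmooth σ)
    (h2 : IsClosedForm σ) (h3 : Cohomologous σ σ₀) : σ ∈ Ray σ₀ := by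
  refine ⟨h1, h2, 1, one_pos, ?_⟩
  have h4 : (fun x => (1 : ℝ) • σ₀ x : Form (ES d) X 2) = σ₀ := by
    funext x
    exact one_smul ℝ _
  rw [h4]
  exact h3

theorem self_mem_ray {σ₀ : Form (ES d) X 2} (h1 : IsSmooth σ₀) (h2 : IsClosedForm σ₀) :
    σ₀ ∈ Ray σ₀ := by
  refine mem_ray h1 h2 ⟨0, 0, (smooth_iff _).2 Pool.Agent.Y501.SY.IsSmooth.zero,
    (smooth_iff _).2 Pool.Agent.Y501.SY.IsSmooth.zero, (isD_iff _ _).2
      Pool.Agent.Y501.SY.IsD.zero, ?_⟩
  funext x
  show σ₀ x = σ₀ x + 0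
  rw [add_zero]

omit [IsManifold 𝓘(ℝ, ES d) ∞ X] in
/-- a form in the ray is a multiple of a form in the class -/
theorem scale {σ₀ σ : Form (ES d) X 2} (h : σ ∈ Ray σ₀) {J : End (ES d) X}
    (ht : ∀ x, TamesAt σ J x) : ∃ w : Form (ES d) X 2, IsSmooth w ∧ IsClosedForm w ∧
      Cohomologous w σ₀ ∧ ∀ x, TamesAt w J x := by
  obtain ⟨s1, c1, c, hc, α, ρ, a1, a2, a3, e1⟩ := h
  have e : (c⁻¹ • σ + (0 : ℝ) • σ : Form (ES d) X 2) = c⁻¹ • σ := by
    rw [zero_smul, add_zero]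
  refine ⟨c⁻¹ • σ, ?_, ?_, ⟨c⁻¹ • α + (0 : ℝ) • α, c⁻¹ • ρ + (0 : ℝ) • ρ,
    Pool.Agent.Q130.SF.smooth_lin a1 a1 _ _, Pool.Agent.Q130.SF.smooth_lin a2 a2 _ _,
    Pool.Agent.Q130.SF.isD_lin a1 a1 a3 a3 _ _, ?_⟩, fun x v hv => ?_⟩
  · rw [← e]
    exact Pool.Agent.Q130.SF.smooth_lin s1 s1 _ _
  · rw [← e]
    exact Pool.Agent.Q130.SF.closed_lin s1 s1 c1 c1 _ _
  · subst e1
    funext x
    show c⁻¹ • (c • σ₀ x + ρ x) = σ₀ x + (c⁻¹ • ρ x + (0 : ℝ) • ρ x)
    rw [smul_add, smul_smul, inv_mul_cancel₀ hc.ne', one_smul, zero_smul, add_zero]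
  · show 0 < c⁻¹ * qd σ J x v
    exact mul_pos (inv_pos.2 hc) (ht x v hv)

omit [IsManifold 𝓘(ℝ, ES d) ∞ X] in
theorem AcFamily.ac {P : Type} [TopologicalSpace P] {J : P → End (ES d) X} (hJ : AcFamily J)
    (p : P) : IsAlmostComplex (J p) := by
  refine ⟨hJ.sq p, fun x₀ v => ?_⟩
  have h1 : ContinuousOn (fun u : ES d => ((p, u) : P × ES d)) (chartAt (ES d) x₀).target := by
    fun_prop
  exact (hJ.cont x₀ v).comp h1 fun u hu => ⟨mem_univ _, hu⟩

omit [IsManifold 𝓘(ℝ, ES d) ∞ X] in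
theorem AcFamily.jfam {P : Type} [TopologicalSpace P] {J : P → End (ES d) X} (hJ : AcFamily J) :
    Pool.Agent.Q130.SF.JFam (d := d) (X := X) J := by
  intro x₀
  rw [continuousOn_clm_apply]
  exact fun v => hJ.cont x₀ v

omit [IsManifold 𝓘(ℝ, ES d) ∞ X] in
theorem acFamily_of {P : Type} [TopologicalSpace P] {J : P → End (ES d) X}
    (h1 : ∀ (p : P) (x : X) (v : TangentSpace 𝓘(ℝ, ES d) x), J p x (J p x v) = -v)
    (h2 : Pool.Agent.Q130.SF.JFam (d := d) (X := X) J) : AcFamily J := by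
  refine ⟨h1, fun x₀ v => ?_⟩
  have h3 := h2 x₀
  rw [continuousOn_clm_apply] at h3
  exact h3 v

omit [IsManifold 𝓘(ℝ, ES d) ∞ X] in
theorem nondeg_of {J : End (ES d) X} {σ : Form (ES d) X 2} (h : ∀ x, TamesAt σ J x) :
    NondegForm σ := by
  intro x v hv
  by_contra hne
  have h4 := h x v hne
  have h5 : qd σ J x v = 0 := hv _
  rw [h5] at h4
  exact lt_irrefl _ h4

end lemmas

/-- **Extension of families of cohomologous symplectic forms.**  `η_q`, `q ∈ Q`, is a continuous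
family of closed forms in the class of `σ₀`.  If it has an extension, or a family `J` as in the
theorem, then its members are symplectic. -/
theorem result (d : ℕ) (X : Type) [TopologicalSpace X] [ChartedSpace (ES d) X]
    [IsManifold 𝓘(ℝ, ES d) ∞ X] [CompactSpace X] [T2Space X] [ConnectedSpace X]
    (P : Type) [TopologicalSpace P] [CompactSpace P] [T2Space P] (Q : Set P)
    (hQ : NbhdRetract Q) (σ₀ : Form (ES d) X 2) (hσ₀ : IsSmooth σ₀) (hσ₀c : IsClosedForm σ₀)
    (η : P → Form (ES d) X 2) (hη : FamilyInClass Q σ₀ η) :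
    -- a given family of almost complex structures
    (∀ J : P → End (ES d) X, AcFamily J → (∀ q ∈ Q, ∀ x, TamesAt (η q) (J q) x) →
      ((∃ Ω : P → Form (ES d) X 2, Extends Q σ₀ η Ω ∧ ∀ p x, TamesAt (Ω p) (J p) x) ↔
        ∀ p, p ∉ Q → SmallLocus (Ray σ₀) (J p))) ∧
    -- the extension problem
    ((∃ Ω : P → Form (ES d) X 2, Extends Q σ₀ η Ω) ↔
      ∃ J : P → End (ES d) X, AcFamily J ∧ (∀ q ∈ Q, ∀ x, TamesAt (η q) (J q) x) ∧
        ∀ p, p ∉ Q → SmallLocus (Ray σ₀) (J p)) := by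
  classical
  have hray : ExactStable (Ray σ₀) := ray_stable
  have hrne : (Ray σ₀).Nonempty := ⟨σ₀, self_mem_ray hσ₀ hσ₀c⟩
  have key : ∀ J : P → End (ES d) X, AcFamily J → (∀ q ∈ Q, ∀ x, TamesAt (η q) (J q) x) →
      ((∃ Ω : P → Form (ES d) X 2, Extends Q σ₀ η Ω ∧ ∀ p x, TamesAt (Ω p) (J p) x) ↔
        ∀ p, p ∉ Q → SmallLocus (Ray σ₀) (J p)) := by
    intro J hJ hJQ
    constructor
    · rintro ⟨Ω, hΩ, hΩt⟩ p _
      exact (tame_iff (hJ.ac p) hray hrne).1 ⟨Ω p, mem_ray (hΩ.family.smooth p (mem_univ p))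
        (hΩ.family.closed p (mem_univ p)) (hΩ.family.inClass p (mem_univ p)), hΩt p⟩
    · intro h
      have hw : ∀ p, ∃ w : Form (ES d) X 2, p ∉ Q → (IsSmooth w ∧ IsClosedForm w ∧
          Cohomologous w σ₀ ∧ ∀ x, TamesAt w (J p) x) := by
        intro p
        by_cases hp : p ∈ Q
        · exact ⟨σ₀, fun h1 => absurd hp h1⟩
        · obtain ⟨σ, hσ, hσt⟩ := (tame_iff (hJ.ac p) hray hrne).2 (h p hp)
          obtain ⟨w, h1⟩ := scale hσ hσt
          exact ⟨w, fun _ => h1⟩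
      choose w hw using hw
      obtain ⟨hQc, N, r, hN, hQN, hr, hrQ, hrid⟩ := hQ
      obtain ⟨Ω, κ, k1, k2, -, k4, k5, k6⟩ := Pool.Agent.Q130.SF.extendS (d := d) (X := X) hQc hN
        hQN hr hrQ hrid hJ.jfam (η := η) (w := w)
        (fun U φ hU hφ => hη.cont U φ ⟨hU, hφ⟩) hη.smooth hJQ (fun p hp => (hw p hp).1)
        (fun p hp => (hw p hp).2.2.2) (fun _ => 0)
      have hcv : Convex ℝ {z : Form (ES d) X 2 × ℝ | IsSmooth z.1 ∧ IsClosedForm z.1 ∧
          Pool.Agent.Q130.SF.Coh z.1 σ₀} :=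
        (Pool.Agent.Q130.SF.convex_class σ₀).linear_preimage (LinearMap.fst ℝ _ ℝ)
      have hcl := k6 _ hcv (fun q hq => ⟨hη.smooth q hq, hη.closed q hq, hη.inClass q hq⟩)
        (fun p hp => ⟨(hw p hp).1, (hw p hp).2.1, (hw p hp).2.2.1⟩)
      refine ⟨Ω, ⟨fun q hq => (k1 q hq).1, ⟨fun p _ => k4 p, fun p _ => (hcl p).2.1,
        fun p _ => (hcl p).2.2, fun U φ hφ => k2 U φ hφ.1 hφ.2⟩, fun p => nondeg_of (k5 p)⟩, k5⟩
  refine ⟨key, ?_, ?_⟩
  · rintro ⟨Ω, hΩ⟩
    obtain ⟨J, h1, h2, h3⟩ := Pool.Agent.Q130.SF.exists_J (d := d) (X := X) (P := P) (Ω := Ω)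
      (fun U φ hU hφ => hΩ.family.cont U φ ⟨hU, hφ⟩) (fun p x v hv => hΩ.nondeg p x v hv)
    have hJ : AcFamily J := acFamily_of h1 h2
    have hJQ : ∀ q ∈ Q, ∀ x, TamesAt (η q) (J q) x := by
      intro q hq x
      rw [← hΩ.eq q hq]
      exact h3 q x
    exact ⟨J, hJ, hJQ, (key J hJ hJQ).1 ⟨Ω, hΩ, h3⟩⟩
  · rintro ⟨J, hJ, hJQ, h⟩
    obtain ⟨Ω, hΩ, -⟩ := (key J hJ hJQ).2 h
    exact ⟨Ω, hΩ⟩

end Pool.Agent.Results.MP_2fc7fa_gt.FamiliesOfLoci
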